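import Mathlib
import Pool.Agent.MP_13a571_an.SMain

open Set Filter Topology Pool.Agent.MP_13a571_an.Sph

theorem Pool.Agent.Results.MP_13a571_an.MetricCriterion.result (D K : Set (OnePoint ℂ))
    (ω : OnePoint ℂ → ℝ) (h : Admissible D K ω) (x : OnePoint ℂ) (hx : x ∈ D) (L : ℝ) (hL : 2 < L) :
    PropS D K ω ↔
      Tendsto (fun r : ℝ => logCap {w | r ^ L ≤ anCap ({v | away x v ∉ D} ∩ Metric.closedBall w r)})
        (𝓝[>] 0) (𝓝 (logCap {v | away x v ∉ D})) :=
  h.criterion hx hL
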